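import Pool.Agent.FanCross.Expo2

/-!
# Crossing triples with at most one point in each part of `B`

For fixed `d ≥ 2`, every 2-colouring of the triples of an `n`-element set admits disjoint sets `A`
and `B = B 0 ∪ ... ∪ B (d - 1)` with `|A| = m`, `|B i| = k` such that all crossing triples of
`(A, B)` with at most one point in each `B i` have the same colour, if
`log n ≥ C m (m ^ 2 + k) (log (m k)) ^ 2` for `d = 2` and
`log n ≥ C m ^ (2 d - 5) (m ^ 2 + k) ^ 2 (log (m k)) ^ 2` for `d ≥ 3`. So for `d = 2` and every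
`m ≤ (log n) ^ (1 / 3 - o(1))` there are such sets with `|A| |B i| = (log n) ^ (1 - o(1))`, and for
every `d`, `|A| = |B i| = (log n) ^ (1 / (2 d - 1) - o(1))`. All triples with two points in `A` and
one in `B` have this colour, and so have the triples with one point in `A` and two points in
different sets `B i`.
-/

set_option autoImplicit false

namespace Pool.Agent.Results.MP_739904_co.FanCrossing

open Pool.Agent.FanCross

private theorem fan_triple {S : Type*} [DecidableEq S] {d : ℕ} {χ : Finset S → Bool} {γ : Bool}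
    {A : Finset S} {B : Fin d → Finset S} (hAB : ∀ i, Disjoint A (B i))
    (h1 : ∀ i, ∀ x ∈ A, ∀ x' ∈ A, x ≠ x' → ∀ y ∈ B i, χ {x, x', y} = γ)
    (h2 : ∀ i j, i ≠ j → ∀ x ∈ A, ∀ y ∈ B i, ∀ y' ∈ B j, χ {x, y, y'} = γ) (T : Finset S)
    (hT : T.card = 3) (hTs : T ⊆ A ∪ Finset.univ.biUnion B) (hTA : (T ∩ A).Nonempty)
    (hTB : (T ∩ Finset.univ.biUnion B).Nonempty) (hTi : ∀ i, (T ∩ B i).card ≤ 1) :
    χ T = γ := by
  have hdis : Disjoint A (Finset.univ.biUnion B) := by
    rw [Finset.disjoint_biUnion_right]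
    exact fun i _ => hAB i
  have hun : T = (T ∩ A) ∪ (T ∩ Finset.univ.biUnion B) := by
    rw [← Finset.inter_union_distrib_left, Finset.inter_eq_left.mpr hTs]
  have hdis' : Disjoint (T ∩ A) (T ∩ Finset.univ.biUnion B) :=
    (hdis.mono Finset.inter_subset_right Finset.inter_subset_right)
  have hsum : (T ∩ A).card + (T ∩ Finset.univ.biUnion B).card = 3 := by
    rw [← Finset.card_union_of_disjoint hdis', ← hun, hT]
  have hA1 := Finset.card_pos.mpr hTA
  have hB1 := Finset.card_pos.mpr hTB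
  rcases (by omega : ((T ∩ A).card = 2 ∧ (T ∩ Finset.univ.biUnion B).card = 1) ∨
      ((T ∩ A).card = 1 ∧ (T ∩ Finset.univ.biUnion B).card = 2)) with ⟨hA, hB⟩ | ⟨hA, hB⟩
  · obtain ⟨x, x', hne, hx⟩ := Finset.card_eq_two.mp hA
    obtain ⟨y, hy⟩ := Finset.card_eq_one.mp hB
    have hxA : x ∈ T ∩ A := by rw [hx]; simp
    have hxA' : x' ∈ T ∩ A := by rw [hx]; simp
    have hyB : y ∈ T ∩ Finset.univ.biUnion B := by rw [hy]; simp
    obtain ⟨i, -, hi⟩ := Finset.mem_biUnion.mp (Finset.mem_inter.mp hyB).2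
    have h3 : T = {x, x', y} := by
      rw [hun, hx, hy]
      ext z
      simp only [Finset.mem_union, Finset.mem_insert, Finset.mem_singleton]
      tauto
    rw [h3]
    exact h1 i x (Finset.mem_inter.mp hxA).2 x' (Finset.mem_inter.mp hxA').2 hne y hi
  · obtain ⟨x, hx⟩ := Finset.card_eq_one.mp hA
    obtain ⟨y, y', hne, hy⟩ := Finset.card_eq_two.mp hB
    have hxA : x ∈ T ∩ A := by rw [hx]; simp
    have hyB : y ∈ T ∩ Finset.univ.biUnion B := by rw [hy]; simp
    have hyB' : y' ∈ T ∩ Finset.univ.biUnion B := by rw [hy]; simp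
    obtain ⟨i, -, hi⟩ := Finset.mem_biUnion.mp (Finset.mem_inter.mp hyB).2
    obtain ⟨j, -, hj⟩ := Finset.mem_biUnion.mp (Finset.mem_inter.mp hyB').2
    have hij : i ≠ j := by
      rintro rfl
      have h3 : 1 < (T ∩ B i).card := by
        rw [Finset.one_lt_card]
        exact ⟨y, Finset.mem_inter.mpr ⟨(Finset.mem_inter.mp hyB).1, hi⟩, y',
          Finset.mem_inter.mpr ⟨(Finset.mem_inter.mp hyB').1, hj⟩, hne⟩
      have h4 := hTi i
      omega
    have h3 : T = {x, y, y'} := by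
      rw [hun, hx, hy]
      ext z
      simp only [Finset.mem_union, Finset.mem_insert, Finset.mem_singleton]
    rw [h3]
    exact h2 i j hij x (Finset.mem_inter.mp hxA).2 y hi y' hj

/-- For every `d ≥ 2` there is a constant `C` such that for all `m, k ≥ 1`, every finite set `S` with
`|S| ≥ 2 ^ (C * E * (⌊log₂ (m * k)⌋ + 1) ^ 2)`, `E = m * (m ^ 2 + k)` for `d = 2` and
`E = m ^ (2 * d - 5) * (m ^ 2 + k) ^ 2` for `d ≥ 3`, and every 2-colouring `χ` of the triples of `S`
there are pairwise disjoint sets `A`, `B 0`, ..., `B (d - 1)` with `|A| = m` and `|B i| = k` such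
that all crossing triples of `(A, ⋃ B i)` which have at most one point in each `B i` have the same
colour. -/
theorem result : ∀ d : ℕ, 2 ≤ d → ∃ C : ℕ, ∀ m k : ℕ, 1 ≤ m → 1 ≤ k →
    ∀ (S : Type) [Fintype S] [DecidableEq S],
    2 ^ (C * ((if d = 2 then m * (m ^ 2 + k) else m ^ (2 * d - 5) * (m ^ 2 + k) ^ 2) *
      (Nat.log 2 (m * k) + 1) ^ 2)) ≤ Fintype.card S → ∀ χ : Finset S → Bool,
    ∃ (A : Finset S) (B : Fin d → Finset S), A.card = m ∧ (∀ i, (B i).card = k) ∧
      (∀ i, Disjoint A (B i)) ∧ (∀ i j, i ≠ j → Disjoint (B i) (B j)) ∧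
      ∃ γ : Bool, ∀ T : Finset S, T.card = 3 → T ⊆ A ∪ Finset.univ.biUnion B →
        (T ∩ A).Nonempty → (T ∩ Finset.univ.biUnion B).Nonempty →
        (∀ i, (T ∩ B i).card ≤ 1) → χ T = γ := by
  intro d hd
  obtain ⟨C, hC⟩ := expo2 d hd
  refine ⟨C, fun m k hm hk S _ _ hS χ => ?_⟩
  obtain ⟨u, q, s, ℓ, T, τ, hq, hu, hu', hs1, hks, hℓ, hτ, hT, hTh⟩ := hC m k hm hk
  have hs : ∀ x y z : S, χ {x, y, z} = χ {y, x, z} := by
    intro x y z
    rw [Finset.insert_comm]
  have hs' : ∀ x y z : S, χ {x, y, z} = χ {x, z, y} := by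
    intro x y z
    rw [Finset.pair_comm y z]
  have hE : m ^ (d - 2) * (m ^ 2 + k) * (if d = 2 then m else m ^ (d - 3) * (m ^ 2 + k)) =
      if d = 2 then m * (m ^ 2 + k) else m ^ (2 * d - 5) * (m ^ 2 + k) ^ 2 := by
    by_cases h2 : d = 2
    · rw [if_pos h2, if_pos h2, h2, Nat.sub_self, pow_zero]
      ring
    · rw [if_neg h2, if_neg h2, show 2 * d - 5 = (d - 2) + (d - 3) by omega, pow_add]
      ring
  rw [hE] at hTh
  have hW : 2 ^ (Th2 d m k u s ℓ T τ (2 * d - 1)) * k ≤ (Finset.univ : Finset S).card := by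
    rw [Finset.card_univ]
    refine le_trans ?_ hS
    calc 2 ^ (Th2 d m k u s ℓ T τ (2 * d - 1)) * k
        ≤ 2 ^ (Th2 d m k u s ℓ T τ (2 * d - 1)) * 2 ^ k := by
          gcongr
          exact Nat.lt_two_pow_self.le
      _ = 2 ^ (Th2 d m k u s ℓ T τ (2 * d - 1) + k) := (pow_add _ _ _).symm
      _ ≤ _ := Nat.pow_le_pow_right (by norm_num) hTh
  obtain ⟨γ, A, B, hA, hB, hAB, hBB, h1, h2⟩ :=
    fan_exists2 (fun x y z => χ {x, y, z}) hs hs' d m k u q s ℓ T τ hd hm hk hq hu hu' hs1 hks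
      hℓ hτ hT Finset.univ hW
  exact ⟨A, B, hA, hB, hAB, hBB, γ, fan_triple hAB h1 h2⟩

end Pool.Agent.Results.MP_739904_co.FanCrossing
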