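import Pool.Agent.FanCross.GrowFin
import Pool.Agent.FanCross.ExpoG

/-!
# Crossing triples with at most one point in each part of `B`, long parts

For fixed `d ≥ 2`, every 2-colouring of the triples of an `n`-element set admits disjoint sets `A`
and `B = B 0 ∪ ... ∪ B (d - 1)`, with `|A| = m`, `|B i| = k` for `i < d - 1` and
`|B (d - 1)| ≥ √n`, such that all crossing triples of `(A, B)` with at most one point in each
`B i` have the same colour, if `log n ≥ C (m ^ (4 d) + m ^ (2 d + 1) k)`.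
-/

set_option autoImplicit false

namespace Pool.Agent.Results.MP_739904_co.FanLongParts

open Pool.Agent.FanCross

private theorem fan_triple {S : Type*} [DecidableEq S] {d : ℕ} {χ : Finset S → Bool} {γ : Bool}
    {A : Finset S} {B : Fin d → Finset S} (hAB : ∀ i, Disjoint A (B i))
    (h1 : ∀ i, ∀ x ∈ A, ∀ x' ∈ A, x ≠ x' → ∀ y ∈ B i, χ {x, x', y} = γ)
    (h2 : ∀ i j, i ≠ j → ∀ x ∈ A, ∀ y ∈ B i, ∀ y' ∈ B j, χ {x, y, y'} = γ) (T : Finset S)
    (hT : T.card = 3) (hTs : T ⊆ A ∪ Finset.univ.biUnion B) (hTA : (T ∩ A).Nonempty)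
    (hTB : (T ∩ Finset.univ.biUnion B).Nonempty) (hTi : ∀ i, (T ∩ B i).card ≤ 1) :
    χ T = γ := by
  have hdis : Disjoint A (Finset.univ.biUnion B) := by
    rw [Finset.disjoint_biUnion_right]
    exact fun i _ => hAB i
  have hun : T = (T ∩ A) ∪ (T ∩ Finset.univ.biUnion B) := by
    rw [← Finset.inter_union_distrib_left, Finset.inter_eq_left.mpr hTs]
  have hdis' : Disjoint (T ∩ A) (T ∩ Finset.univ.biUnion B) :=
    (hdis.mono Finset.inter_subset_right Finset.inter_subset_right)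
  have hsum : (T ∩ A).card + (T ∩ Finset.univ.biUnion B).card = 3 := by
    rw [← Finset.card_union_of_disjoint hdis', ← hun, hT]
  have hA1 := Finset.card_pos.mpr hTA
  have hB1 := Finset.card_pos.mpr hTB
  rcases (by omega : ((T ∩ A).card = 2 ∧ (T ∩ Finset.univ.biUnion B).card = 1) ∨
      ((T ∩ A).card = 1 ∧ (T ∩ Finset.univ.biUnion B).card = 2)) with ⟨hA, hB⟩ | ⟨hA, hB⟩
  · obtain ⟨x, x', hne, hx⟩ := Finset.card_eq_two.mp hA
    obtain ⟨y, hy⟩ := Finset.card_eq_one.mp hB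
    have hxA : x ∈ T ∩ A := by rw [hx]; simp
    have hxA' : x' ∈ T ∩ A := by rw [hx]; simp
    have hyB : y ∈ T ∩ Finset.univ.biUnion B := by rw [hy]; simp
    obtain ⟨i, -, hi⟩ := Finset.mem_biUnion.mp (Finset.mem_inter.mp hyB).2
    have h3 : T = {x, x', y} := by
      rw [hun, hx, hy]
      ext z
      simp only [Finset.mem_union, Finset.mem_insert, Finset.mem_singleton]
      tauto
    rw [h3]
    exact h1 i x (Finset.mem_inter.mp hxA).2 x' (Finset.mem_inter.mp hxA').2 hne y hi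
  · obtain ⟨x, hx⟩ := Finset.card_eq_one.mp hA
    obtain ⟨y, y', hne, hy⟩ := Finset.card_eq_two.mp hB
    have hxA : x ∈ T ∩ A := by rw [hx]; simp
    have hyB : y ∈ T ∩ Finset.univ.biUnion B := by rw [hy]; simp
    have hyB' : y' ∈ T ∩ Finset.univ.biUnion B := by rw [hy]; simp
    obtain ⟨i, -, hi⟩ := Finset.mem_biUnion.mp (Finset.mem_inter.mp hyB).2
    obtain ⟨j, -, hj⟩ := Finset.mem_biUnion.mp (Finset.mem_inter.mp hyB').2
    have hij : i ≠ j := by
      rintro rfl
      have h3 : 1 < (T ∩ B i).card := by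
        rw [Finset.one_lt_card]
        exact ⟨y, Finset.mem_inter.mpr ⟨(Finset.mem_inter.mp hyB).1, hi⟩, y',
          Finset.mem_inter.mpr ⟨(Finset.mem_inter.mp hyB').1, hj⟩, hne⟩
      have h4 := hTi i
      omega
    have h3 : T = {x, y, y'} := by
      rw [hun, hx, hy]
      ext z
      simp only [Finset.mem_union, Finset.mem_insert, Finset.mem_singleton]
    rw [h3]
    exact h2 i j hij x (Finset.mem_inter.mp hxA).2 y hi y' hj

/-- For every `d ≥ 2` there is a constant `C` such that for all `m, k ≥ 1`, every finite set `S` with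
`|S| ≥ 2 ^ (C * (m ^ (4 d) + m ^ (2 d + 1) * k))` and every 2-colouring `χ` of the triples of `S`
there are pairwise disjoint sets `A`, `B 0`, ..., `B (d - 1)` with `|A| = m`, `|B i| = k` for
`i < d - 1` and `|B (d - 1)| ^ 2 ≥ |S|` such that all crossing triples of `(A, ⋃ B i)` which have
at most one point in each `B i` have the same colour. -/
theorem result : ∀ d : ℕ, 2 ≤ d → ∃ C : ℕ, ∀ m k : ℕ, 1 ≤ m → 1 ≤ k →
    ∀ (S : Type) [Fintype S] [DecidableEq S],
    2 ^ (C * (m ^ (4 * d) + m ^ (2 * d + 1) * k)) ≤ Fintype.card S → ∀ χ : Finset S → Bool,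
    ∃ (A : Finset S) (B : Fin d → Finset S), A.card = m ∧
      (∀ i : Fin d, (i : ℕ) + 1 < d → (B i).card = k) ∧
      (∀ i : Fin d, (i : ℕ) + 1 = d → Fintype.card S ≤ (B i).card ^ 2) ∧
      (∀ i, Disjoint A (B i)) ∧ (∀ i j, i ≠ j → Disjoint (B i) (B j)) ∧
      ∃ γ : Bool, ∀ T : Finset S, T.card = 3 → T ⊆ A ∪ Finset.univ.biUnion B →
        (T ∩ A).Nonempty → (T ∩ Finset.univ.biUnion B).Nonempty →
        (∀ i, (T ∩ B i).card ≤ 1) → χ T = γ := by
  intro d hd
  obtain ⟨e, rfl⟩ : ∃ e, d = e + 1 := ⟨d - 1, by omega⟩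
  obtain ⟨C, hC⟩ := expoG (e + 1) hd
  refine ⟨C, fun m k hm hk S _ _ hS χ => ?_⟩
  obtain ⟨u, q, K, D, T, h1, h2, h3, h4, h5, h6, h7⟩ := hC m k hm hk
  have hs : ∀ x y z : S, χ {x, y, z} = χ {y, x, z} := by
    intro x y z
    rw [Finset.insert_comm]
  have hs' : ∀ x y z : S, χ {x, y, z} = χ {x, z, y} := by
    intro x y z
    rw [Finset.pair_comm y z]
  set E := (2 * m * (e + 1 - 1) + 1) * T with hE
  have hbig : 2 ^ (2 * (E + 2)) ≤ Fintype.card S :=
    (Nat.pow_le_pow_right (by norm_num) h7).trans hS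
  have hfan := grow_exists (fun x y z => χ {x, y, z}) hs hs' k m u (e + 1) q K D T hm hd h1 h2 h3
    h4 h5 h6 Finset.univ (by
      rw [Finset.card_univ]
      exact (Nat.pow_le_pow_right (by norm_num) (by omega)).trans hbig)
  rw [Nat.add_sub_cancel] at hfan
  obtain ⟨γ, A, B, g1, g2, g3, g4, g5, g6, g7⟩ := hfan.fin hs'
  refine ⟨A, B, g1, fun i hi => g2 i (by omega), fun i hi => ?_, g4, g5, γ,
    fan_triple g4 g6 g7⟩
  have h8 := g3 i (by omega)
  rw [Finset.card_univ] at h8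
  have h10 : ∀ x b : ℕ, 2 ^ x * b * (2 ^ x * b) = 2 ^ (2 * x) * b ^ 2 := by
    intro x b
    rw [two_mul, pow_add]
    ring
  have h9 : Fintype.card S * Fintype.card S ≤ Fintype.card S * (B i).card ^ 2 := by
    calc Fintype.card S * Fintype.card S
        ≤ (2 ^ ((2 * m * e + 1) * T) * (B i).card) * (2 ^ ((2 * m * e + 1) * T) * (B i).card) :=
          Nat.mul_le_mul h8 h8
      _ = 2 ^ (2 * ((2 * m * e + 1) * T)) * (B i).card ^ 2 := h10 _ _
      _ ≤ 2 ^ (2 * (E + 2)) * (B i).card ^ 2 := by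
          refine Nat.mul_le_mul_right _ (Nat.pow_le_pow_right (by norm_num) ?_)
          rw [hE, Nat.add_sub_cancel]
          omega
      _ ≤ Fintype.card S * (B i).card ^ 2 := Nat.mul_le_mul_right _ hbig
  exact Nat.le_of_mul_le_mul_left h9 (lt_of_lt_of_le (by positivity) hbig)

end Pool.Agent.Results.MP_739904_co.FanLongParts
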