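import Pool.Agent.CrossTree.Pair

/-!
# Unbalanced crossing pairs, `|B|` of order `log log n`

Every colouring of the triples of an `n`-element set with `q` colours, where
`n ≥ (2 q ^ (q s)) ^ (m q ^ (q s))`, admits disjoint sets `A`, `B` with `|A| = m`, `|B| = s` such
that all triples in `A ∪ B` which meet `B` have the same colour. For `q = 2` the condition is
`n ≥ 2 ^ (m (2 s + 1) 4 ^ s)`.
-/

set_option autoImplicit false

namespace Pool.Agent.Results.MP_739904_co.UnbalancedPairs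

open Pool.Agent.CrossTree

private theorem meet_triple {S κ : Type*} [DecidableEq S] {χ : Finset S → κ} {c : κ}
    {A B : Finset S}
    (h1 : ∀ b ∈ B, ∀ a ∈ A, ∀ a' ∈ A, a ≠ a' → χ {b, a, a'} = c)
    (h2 : ∀ b ∈ B, ∀ b' ∈ B, b ≠ b' → ∀ a ∈ A, χ {b, b', a} = c)
    (h3 : ∀ b ∈ B, ∀ b' ∈ B, ∀ b'' ∈ B, b ≠ b' → b ≠ b'' → b' ≠ b'' → χ {b, b', b''} = c)
    (hs : ∀ x y z : S, χ {x, y, z} = χ {y, x, z}) (hs' : ∀ x y z : S, χ {x, y, z} = χ {x, z, y})
    (hAB : Disjoint A B) (T : Finset S) (hT : T.card = 3) (hTs : T ⊆ A ∪ B)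
    (hTB : (T ∩ B).Nonempty) : χ T = c := by
  obtain ⟨x, y, z, hxy, hxz, hyz, rfl⟩ := Finset.card_eq_three.mp hT
  have hx : x ∈ A ∨ x ∈ B := Finset.mem_union.mp (hTs (by simp))
  have hy : y ∈ A ∨ y ∈ B := Finset.mem_union.mp (hTs (by simp))
  have hz : z ∈ A ∨ z ∈ B := Finset.mem_union.mp (hTs (by simp))
  rcases hx with hx | hx <;> rcases hy with hy | hy <;> rcases hz with hz | hz
  · exfalso
    obtain ⟨t, ht⟩ := hTB
    obtain ⟨ht1, ht2⟩ := Finset.mem_inter.mp ht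
    simp only [Finset.mem_insert, Finset.mem_singleton] at ht1
    rcases ht1 with rfl | rfl | rfl
    · exact Finset.disjoint_left.mp hAB hx ht2
    · exact Finset.disjoint_left.mp hAB hy ht2
    · exact Finset.disjoint_left.mp hAB hz ht2
  · rw [hs', hs]
    exact h1 z hz x hx y hy hxy
  · rw [hs]
    exact h1 y hy x hx z hz hxz
  · rw [hs, hs']
    exact h2 y hy z hz hyz x hx
  · exact h1 x hx y hy z hz hyz
  · rw [hs']
    exact h2 x hx z hz hxz y hy
  · exact h2 x hx y hy hxy z hz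
  · exact h3 x hx y hy z hz hxy hxz hyz

/-- For `q ≥ 2`, `s, m ≥ 1` and `n ≥ (2 q ^ (q s)) ^ (m q ^ (q s))` every `q`-colouring `χ` of the
triples of an `n`-element set admits disjoint sets `A`, `B` with `|A| = m` and `|B| = s` such that
all triples `T ⊆ A ∪ B` with `T ∩ B ≠ ∅` have the same colour. -/
theorem result : ∀ q s m n : ℕ, 2 ≤ q → 1 ≤ s → 1 ≤ m →
    (2 * q ^ (q * s)) ^ (m * q ^ (q * s)) ≤ n →
    ∀ χ : Finset (Fin n) → Fin q, ∃ A B : Finset (Fin n),
      Disjoint A B ∧ A.card = m ∧ B.card = s ∧ ∃ c : Fin q, ∀ T : Finset (Fin n),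
        T.card = 3 → T ⊆ A ∪ B → (T ∩ B).Nonempty → χ T = c := by
  intro q s m n hq hs1 hm1 hn χ
  have hs : ∀ x y z : Fin n, χ {x, y, z} = χ {y, x, z} := by
    intro x y z
    rw [Finset.insert_comm]
  have hs' : ∀ x y z : Fin n, χ {x, y, z} = χ {x, z, y} := by
    intro x y z
    rw [Finset.pair_comm y z]
  obtain ⟨c, A, B, hAB, hA, hB, h1, h2, h3⟩ := exists_pair (κ := Fin q)
    (by rw [Fintype.card_fin]; exact hq) (fun x y z => χ {x, y, z}) hs hs' s m hs1 hm1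
    Finset.univ (by rw [Fintype.card_fin, Finset.card_univ, Fintype.card_fin]; exact hn)
  exact ⟨A, B, hAB, hA, hB, c, fun T hT hTs hTB =>
    meet_triple h1 h2 h3 hs hs' hAB T hT hTs hTB⟩

end Pool.Agent.Results.MP_739904_co.UnbalancedPairs
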